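import Mathlib

set_option autoImplicit false

/-! Periods of powers modulo `p ^ m`, for odd `p`: the growth step. -/

namespace Pool.Agent.R450.CA

open Finset

/-- `K` contains `0` and is closed under sums and differences -/
structure Closed (K : Set ℕ) : Prop where
  zero : 0 ∈ K
  add : ∀ a b, a ∈ K → b ∈ K → a + b ∈ K
  sub : ∀ a b, a ∈ K → a + b ∈ K → b ∈ K

theorem Closed.mul {K : Set ℕ} (h : Closed K) {a : ℕ} (ha : a ∈ K) (c : ℕ) : c * a ∈ K := by
  induction c with
  | zero => simpa using h.zero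
  | succ c ih =>
    rw [Nat.succ_mul]
    exact h.add _ _ ih ha

theorem Closed.mod {K : Set ℕ} (h : Closed K) {a b : ℕ} (ha : a ∈ K) (hb : b ∈ K) :
    b % a ∈ K := by
  have h1 := h.mul ha (b / a)
  apply h.sub _ _ h1
  rwa [Nat.mul_comm, Nat.div_add_mod]

theorem Closed.gcd {K : Set ℕ} (h : Closed K) {a b : ℕ} (ha : a ∈ K) (hb : b ∈ K) :
    Nat.gcd a b ∈ K := by
  induction a, b using Nat.gcd.induction with
  | H0 n => rwa [Nat.gcd_zero_left]
  | H1 m n _ ih =>
    rw [Nat.gcd_rec]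
    exact ih (h.mod ha hb) ha

/-- the least positive member divides all members -/
theorem Closed.dvd_iff {K : Set ℕ} (h : Closed K) {d : ℕ} (hd : d ∈ K) (hd0 : 0 < d)
    (hmin : ∀ k ∈ K, 0 < k → d ≤ k) (k : ℕ) : k ∈ K ↔ d ∣ k := by
  constructor
  · intro hk
    have h1 := h.gcd hd hk
    have h2 : 0 < Nat.gcd d k := Nat.gcd_pos_of_pos_left _ hd0
    have h3 := hmin _ h1 h2
    have h4 : Nat.gcd d k = d := le_antisymm (Nat.gcd_le_left _ hd0) h3
    rw [← h4]
    exact Nat.gcd_dvd_right _ _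
  · rintro ⟨c, rfl⟩
    rw [Nat.mul_comm]
    exact h.mul hd c

section

variable {S : Type*} [CommRing S] (p : ℕ) (y : S)

/-- `k` is a period of the powers of `y` modulo `p ^ m` -/
def PS (m k : ℕ) : Prop := ∃ l : ℕ, (p : S) ^ m ∣ y ^ l * (y ^ k - 1)

variable {p y}

theorem PS.mono {m m' k : ℕ} (hm : m ≤ m') (h : PS p y m' k) : PS p y m k := by
  obtain ⟨l, hl⟩ := h
  exact ⟨l, (pow_dvd_pow _ hm).trans hl⟩

theorem closed_PS (p : ℕ) (y : S) (m : ℕ) : Closed {k | PS p y m k} where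
  zero := ⟨0, by simp⟩
  add := by
    rintro a b ⟨l, hl⟩ ⟨l', hl'⟩
    refine ⟨l + l', ?_⟩
    have e : y ^ (l + l') * (y ^ (a + b) - 1) =
        y ^ l' * y ^ b * (y ^ l * (y ^ a - 1)) + y ^ l * (y ^ l' * (y ^ b - 1)) := by ring
    rw [e]
    exact dvd_add (hl.mul_left _) (hl'.mul_left _)
  sub := by
    rintro a b ⟨l, hl⟩ ⟨l', hl'⟩
    refine ⟨l + l', ?_⟩
    have e : y ^ (l + l') * (y ^ b - 1) =
        y ^ l * (y ^ l' * (y ^ (a + b) - 1)) - y ^ l' * y ^ b * (y ^ l * (y ^ a - 1)) := by ring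
    rw [e]
    exact dvd_sub (hl'.mul_left _) (hl.mul_left _)

/-- `(1 + D) ^ p - 1 = p D + C(p,2) D² + … + D ^ p` -/
theorem pow_sub_one (hp : 2 ≤ p) (D : S) :
    (D + 1) ^ p - 1 = p * D + ∑ i ∈ Ico 2 p, (p.choose i : S) * D ^ i + D ^ p := by
  rw [add_pow, sum_range_succ]
  simp only [one_pow, mul_one, Nat.choose_self, Nat.cast_one]
  have h : ∑ x ∈ range p, D ^ x * (p.choose x : S) =
      1 + p * D + ∑ i ∈ Ico 2 p, (p.choose i : S) * D ^ i := by
    rw [range_eq_Ico, ← sum_Ico_consecutive _ (Nat.zero_le 2) hp]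
    congr 1
    · rw [← range_eq_Ico, sum_range_succ, sum_range_succ, sum_range_zero]
      simp
      ring
    · apply sum_congr rfl
      intro i _
      ring
  rw [h]
  ring

/-- the first order expansion of the `p`-th power -/
theorem step_expand (hp : p.Prime) (hp2 : p ≠ 2) {m k l : ℕ} (hm : 1 ≤ m) {s : S}
    (h : y ^ l * (y ^ k - 1) = (p : S) ^ m * s) :
    ∃ t : S, y ^ (p * l) * (y ^ (p * k) - 1) =
      (p : S) ^ (m + 1) * (y ^ ((p - 1) * l) * s) + (p : S) ^ (m + 2) * t := by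
  have hp3 : 3 ≤ p := by
    have := hp.two_le
    omega
  set D := y ^ k - 1 with hD
  have e1 : y ^ (p * k) - 1 = (D + 1) ^ p - 1 := by
    rw [hD, sub_add_cancel, mul_comm p k, pow_mul]
  rw [e1, pow_sub_one hp.two_le, mul_add, mul_add, mul_sum]
  -- the middle terms
  have hmid : ∀ i ∈ Ico 2 p, (p : S) ^ (m + 2) ∣ y ^ (p * l) * ((p.choose i : S) * D ^ i) := by
    intro i hi
    rw [mem_Ico] at hi
    obtain ⟨c, hc⟩ := hp.dvd_choose_self (by omega) hi.2
    have e2 : y ^ (p * l) * ((p.choose i : S) * D ^ i) =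
        (p : S) ^ (m + 2) * ((p : S) ^ (i * m + 1 - (m + 2)) * (c * y ^ ((p - i) * l) * s ^ i)) := by
      have e3 : p * l = (p - i) * l + i * l := by
        rw [← Nat.add_mul, Nat.sub_add_cancel hi.2.le]
      have e4 : y ^ (i * l) * D ^ i = (p : S) ^ (i * m) * s ^ i := by
        rw [mul_comm i l, pow_mul, ← mul_pow, h, mul_pow, ← pow_mul, mul_comm m i]
      have e5 : (p : S) ^ (m + 2) * (p : S) ^ (i * m + 1 - (m + 2)) = (p : S) ^ (i * m) * p := by
        rw [← pow_add, ← pow_succ]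
        congr 1
        have : 2 * m ≤ i * m := Nat.mul_le_mul_right _ hi.1
        omega
      calc y ^ (p * l) * ((p.choose i : S) * D ^ i)
          = (p.choose i : S) * y ^ ((p - i) * l) * (y ^ (i * l) * D ^ i) := by
            rw [e3, pow_add]; ring
        _ = _ := by
            rw [e4, hc, Nat.cast_mul]
            generalize i * m + 1 - (m + 2) = r at e5 ⊢
            linear_combination (-(c * y ^ ((p - i) * l) * s ^ i : S)) * e5
    rw [e2]
    exact Dvd.intro _ rfl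
  obtain ⟨t1, ht1⟩ := dvd_sum hmid
  have hlast : y ^ (p * l) * D ^ p = (p : S) ^ (m + 2) * ((p : S) ^ (p * m - (m + 2)) * s ^ p) := by
    have e4 : y ^ (p * l) * D ^ p = (p : S) ^ (p * m) * s ^ p := by
      rw [mul_comm p l, pow_mul, ← mul_pow, h, mul_pow, ← pow_mul, mul_comm m p]
    rw [e4, ← mul_assoc, ← pow_add]
    congr 2
    have : 3 * m ≤ p * m := Nat.mul_le_mul_right _ hp3
    omega
  have hfirst : y ^ (p * l) * ((p : S) * D) = (p : S) ^ (m + 1) * (y ^ ((p - 1) * l) * s) := by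
    have e3 : p * l = (p - 1) * l + l := by
      conv_lhs => rw [← Nat.sub_add_cancel hp.one_le, Nat.add_mul, Nat.one_mul]
    rw [e3, pow_add]
    linear_combination (p * y ^ ((p - 1) * l)) * h
  refine ⟨t1 + (p : S) ^ (p * m - (m + 2)) * s ^ p, ?_⟩
  rw [ht1, hlast, hfirst]
  ring

/-- periods modulo `p ^ m` times `p` are periods modulo `p ^ (m+1)` -/
theorem PS.step (hp : p.Prime) (hp2 : p ≠ 2) {m k : ℕ} (hm : 1 ≤ m) (h : PS p y m k) :
    PS p y (m + 1) (p * k) := by
  obtain ⟨l, s, hs⟩ := h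
  obtain ⟨t, ht⟩ := step_expand hp hp2 hm hs
  refine ⟨p * l, ?_⟩
  rw [ht, pow_succ _ (m + 1), mul_assoc ((p : S) ^ (m + 1)) p t, ← mul_add]
  exact Dvd.intro _ rfl

/-- if a period does not survive to the next power of `p` then its `p`-fold does not either -/
theorem not_PS_step (hp : p.Prime) (hp2 : p ≠ 2) (hreg : ∀ z : S, (p : S) * z = 0 → z = 0)
    {m k : ℕ} (hm : 1 ≤ m) (h : PS p y m k) (hn : ¬ PS p y (m + 1) k) :
    ¬ PS p y (m + 2) (p * k) := by
  have hreg' : ∀ (j : ℕ) (z : S), (p : S) ^ j * z = 0 → z = 0 := by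
    intro j
    induction j with
    | zero => intro z hz; simpa using hz
    | succ j ih =>
      intro z hz
      rw [pow_succ, mul_assoc] at hz
      exact hreg z (ih _ hz)
  obtain ⟨l, s, hs⟩ := h
  obtain ⟨t, ht⟩ := step_expand hp hp2 hm hs
  rintro ⟨L, u, hu⟩
  apply hn
  refine ⟨L + p * l, ?_⟩
  have e1 : (p : S) ^ (m + 1) * (y ^ L * y ^ ((p - 1) * l) * s + p * (y ^ L * t - y ^ (p * l) * u)) =
      0 := by
    have h1 : y ^ L * (y ^ (p * l) * (y ^ (p * k) - 1)) = y ^ (p * l) * ((p : S) ^ (m + 2) * u) := by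
      rw [← hu]; ring
    rw [ht] at h1
    linear_combination h1
  have e2 := hreg' _ _ e1
  have e3 : y ^ (L + p * l) * (y ^ k - 1) = (p : S) ^ (m + 1) * (y ^ (p * l) * u - y ^ L * t) := by
    have e4 : p * l = (p - 1) * l + l := by
      conv_lhs => rw [← Nat.sub_add_cancel hp.one_le, Nat.add_mul, Nat.one_mul]
    have e5 : y ^ (L + p * l) * (y ^ k - 1) =
        y ^ L * y ^ ((p - 1) * l) * (y ^ l * (y ^ k - 1)) := by
      rw [e4]; ring
    rw [e5, hs]
    linear_combination (p : S) ^ m * e2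
  rw [e3]
  exact Dvd.intro _ rfl

/-- the growth theorem -/
theorem growth (hp : p.Prime) (hp2 : p ≠ 2) (hreg : ∀ z : S, (p : S) * z = 0 → z = 0) {d : ℕ}
    (hd : ∀ k, PS p y 1 k ↔ d ∣ k) (hn : ¬ PS p y 2 d) (m : ℕ) :
    ∀ k, PS p y (m + 1) k ↔ p ^ m * d ∣ k := by
  have key : ∀ m : ℕ, PS p y (m + 1) (p ^ m * d) ∧ ¬ PS p y (m + 2) (p ^ m * d) := by
    intro m
    induction m with
    | zero =>
      rw [pow_zero, one_mul]
      exact ⟨(hd d).2 dvd_rfl, hn⟩
    | succ m ih =>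
      rw [pow_succ', mul_assoc]
      exact ⟨ih.1.step hp hp2 (by omega), not_PS_step hp hp2 hreg (by omega) ih.1 ih.2⟩
  induction m with
  | zero =>
    intro k
    rw [pow_zero, one_mul]
    exact hd k
  | succ m ih =>
    intro k
    constructor
    · intro hk
      obtain ⟨c, hc⟩ := (ih k).1 (hk.mono (by omega))
      by_cases hpc : p ∣ c
      · obtain ⟨c', rfl⟩ := hpc
        refine ⟨c', ?_⟩
        rw [hc, pow_succ]
        ring
      · exfalso
        have h1 := (closed_PS p y (m + 2)).gcd (key (m + 1)).1 hk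
        have h2 : Nat.gcd (p ^ (m + 1) * d) k = p ^ m * d := by
          rw [hc, pow_succ, mul_assoc, mul_comm p d, ← mul_assoc, Nat.gcd_mul_left,
            (Nat.Prime.coprime_iff_not_dvd hp).2 hpc, mul_one]
        rw [h2] at h1
        exact (key m).2 h1
    · rintro ⟨c, rfl⟩
      rw [mul_comm]
      exact (closed_PS p y (m + 2)).mul (key (m + 1)).1 c

end

end Pool.Agent.R450.CA
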