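import Mathlib
import Pool.Agent.R450.CA.Growth

set_option autoImplicit false

/-! Polynomials modulo `(N, X ^ s - 1)`. -/

namespace Pool.Agent.R450.CA

open Polynomial

/-- `f` lies in the ideal `(N, X ^ s - 1)` of `ℤ[X]` -/
def In (N s : ℕ) (f : ℤ[X]) : Prop := ∃ w v : ℤ[X], f = (N : ℤ[X]) * w + (X ^ s - 1) * v

/-- reduction modulo `N` -/
noncomputable abbrev red (N : ℕ) : ℤ[X] →+* (ZMod N)[X] := mapRingHom (Int.castRingHom (ZMod N))

theorem red_eq_zero {N : ℕ} {f : ℤ[X]} : red N f = 0 ↔ (N : ℤ[X]) ∣ f := by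
  have : ((N : ℤ[X])) = C (N : ℤ) := by simp
  rw [this, C_dvd_iff_dvd_coeff, Polynomial.ext_iff]
  refine forall_congr' fun i => ?_
  rw [coe_mapRingHom, coeff_map, coeff_zero, Int.coe_castRingHom, ZMod.intCast_zmod_eq_zero_iff_dvd]

theorem red_surj (N : ℕ) : Function.Surjective (red N) := by
  intro g
  obtain ⟨f, hf⟩ := Polynomial.map_surjective (Int.castRingHom (ZMod N)) (ZMod.ringHom_surjective _) g
  exact ⟨f, hf⟩

theorem red_X (N : ℕ) : red N X = X := by simp

theorem in_iff {N s : ℕ} {f : ℤ[X]} : In N s f ↔ (X ^ s - 1 : (ZMod N)[X]) ∣ red N f := by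
  constructor
  · rintro ⟨w, v, rfl⟩
    refine ⟨red N v, ?_⟩
    have h1 : red N (N : ℤ[X]) = 0 := red_eq_zero.2 dvd_rfl
    rw [map_add, map_mul, h1, zero_mul, zero_add, map_mul, map_sub, map_pow, red_X, map_one]
  · rintro ⟨g, hg⟩
    obtain ⟨v, rfl⟩ := red_surj N g
    have h1 : red N (f - (X ^ s - 1) * v) = 0 := by
      rw [map_sub, hg, map_mul, map_sub, map_pow, red_X, map_one, sub_self]
    obtain ⟨w, hw⟩ := red_eq_zero.1 h1
    exact ⟨w, v, by rw [← hw]; ring⟩

theorem In.mul_left {N s : ℕ} {f : ℤ[X]} (h : In N s f) (g : ℤ[X]) : In N s (g * f) := by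
  rw [in_iff] at h ⊢
  rw [map_mul]
  exact h.mul_left _

theorem In.of_dvd_sub {N s : ℕ} {f g : ℤ[X]} (h : In N s f) (hd : (N : ℤ[X]) ∣ f - g) : In N s g := by
  rw [in_iff] at h ⊢
  have : red N (f - g) = 0 := red_eq_zero.2 hd
  rw [map_sub, sub_eq_zero] at this
  rwa [← this]

theorem monic_Xs {R : Type*} [CommRing R] {s : ℕ} (hs : 1 ≤ s) : (X ^ s - 1 : R[X]).Monic := by
  have := monic_X_pow_sub_C (1 : R) (n := s) (by omega)
  simpa using this

/-- descent of divisibility along `X ↦ X ^ q` -/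
theorem dvd_of_expand {R : Type*} [CommRing R] [Nontrivial R] {q s : ℕ} (hq : 1 ≤ q) (hs : 1 ≤ s)
    {f : R[X]} (h : (X ^ (q * s) - 1 : R[X]) ∣ expand R q f) : (X ^ s - 1 : R[X]) ∣ f := by
  have hm : (X ^ s - 1 : R[X]).Monic := monic_Xs hs
  have hm2 : (X ^ (q * s) - 1 : R[X]).Monic := monic_Xs (Nat.mul_pos hq hs)
  have h1 := modByMonic_add_div f (X ^ s - 1 : R[X])
  have h2 : expand R q (X ^ s - 1 : R[X]) = X ^ (q * s) - 1 := by
    rw [map_sub, map_pow, expand_X, map_one, ← pow_mul]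
  have h3 : (X ^ (q * s) - 1 : R[X]) ∣ expand R q (f %ₘ (X ^ s - 1)) := by
    have h4 : expand R q (f %ₘ (X ^ s - 1)) =
        expand R q f - (X ^ (q * s) - 1) * expand R q (f /ₘ (X ^ s - 1)) := by
      conv_rhs => rw [← h1]
      rw [map_add, map_mul, h2]
      conv_rhs => rw [h1]
      ring
    rw [h4]
    exact dvd_sub h (Dvd.intro _ rfl)
  have h5 : f %ₘ (X ^ s - 1) = 0 := by
    by_contra hne
    have h6 : (f %ₘ (X ^ s - 1)).natDegree < s := by
      have := natDegree_modByMonic_lt f hm (by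
        intro h
        have := congrArg natDegree h
        rw [natDegree_one] at this
        have h7 : (X ^ s - 1 : R[X]).natDegree = s := by
          have := natDegree_X_pow_sub_C (R := R) (n := s) (r := 1)
          simpa using this
        omega)
      have h7 : (X ^ s - 1 : R[X]).natDegree = s := by
        have := natDegree_X_pow_sub_C (R := R) (n := s) (r := 1)
        simpa using this
      rwa [h7] at this
    have h8 : (expand R q (f %ₘ (X ^ s - 1))).natDegree < q * s := by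
      rw [natDegree_expand, mul_comm]
      exact Nat.mul_lt_mul_of_pos_left h6 hq
    have h9 : (X ^ (q * s) - 1 : R[X]).natDegree = q * s := by
      have := natDegree_X_pow_sub_C (R := R) (n := q * s) (r := 1)
      simpa using this
    have h10 := (modByMonic_eq_zero_iff_dvd hm2).2 h3
    rw [(modByMonic_eq_self_iff hm2).2] at h10
    · exact hne ((expand_eq_zero hq).1 h10)
    · apply degree_lt_degree
      omega
  rw [← modByMonic_eq_zero_iff_dvd hm]
  exact h5

end Pool.Agent.R450.CA
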