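import Mathlib
import Pool.Agent.R450.CA.Poly

set_option autoImplicit false

/-! The key descent lemma: no period modulo `p ^ 2` of exact `p`-power type. -/

namespace Pool.Agent.R450.CA

open Polynomial

/-- the integer polynomial `a + b X` -/
noncomputable def Lin (a b : ℤ) : ℤ[X] := C a + C b * X

theorem derivative_Lin (a b : ℤ) : derivative (Lin a b) = C b := by
  simp [Lin]

theorem red_derivative (N : ℕ) (f : ℤ[X]) : red N (derivative f) = derivative (red N f) := by
  rw [coe_mapRingHom, derivative_map]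

theorem red_Lin (N : ℕ) (a b : ℤ) : red N (Lin a b) = C (a : ZMod N) + C (b : ZMod N) * X := by
  simp [Lin]

theorem red_C (N : ℕ) (a : ℤ) : red N (C a) = C (a : ZMod N) := by
  simp

theorem key {p s L N : ℕ} {a b : ℤ} (hp : p.Prime) (hps : p ∣ s) (hs0 : 1 ≤ s)
    (ha : ¬ (p : ℤ) ∣ a) (hb : ¬ (p : ℤ) ∣ b) (hL : p ∣ L) (hN : ¬ p ∣ N)
    (h : In (p ^ 2) s (Lin a b ^ (p * (L + N)) - Lin a b ^ (p * L))) :
    (X ^ s - 1 : (ZMod p)[X]) ∣ (red p (Lin a b)) ^ (p * (L + N) - 2) := by
  have : Fact p.Prime := ⟨hp⟩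
  have hN0 : 1 ≤ N := by
    rcases Nat.eq_zero_or_pos N with h0 | h0
    · exact absurd (h0 ▸ dvd_zero p) hN
    · exact h0
  have hpM : 2 ≤ p * (L + N) := by
    calc 2 ≤ p := hp.two_le
      _ = p * 1 := (mul_one p).symm
      _ ≤ p * (L + N) := Nat.mul_le_mul_left _ (by omega)
  obtain ⟨τ, hτ⟩ := hps
  obtain ⟨w, v, hwv⟩ := h
  set A := Lin a b with hA
  have hpz : (p : ZMod p) = 0 := ZMod.natCast_self p
  have hbz : ((b : ℤ) : ZMod p) ≠ 0 := by
    rw [Ne, ZMod.intCast_zmod_eq_zero_iff_dvd]; exact hb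
  have haz : ((a : ℤ) : ZMod p) ≠ 0 := by
    rw [Ne, ZMod.intCast_zmod_eq_zero_iff_dvd]; exact ha
  have hNz : (N : ZMod p) ≠ 0 := by
    rw [Ne, ZMod.natCast_eq_zero_iff]; exact hN
  have hrp : red p (p : ℤ[X]) = 0 := red_eq_zero.2 dvd_rfl
  -- derivative of the relation
  have h1 : (p : ℤ[X]) * (((L + N : ℕ) : ℤ[X]) * C b * A ^ (p * (L + N) - 1) - (L : ℤ[X]) * C b * A ^ (p * L - 1)) =
      (p : ℤ[X]) * ((p : ℤ[X]) * derivative w + (τ : ℤ[X]) * X ^ (s - 1) * v) + (X ^ s - 1) * derivative v := by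
    have h2 := congrArg derivative hwv
    rw [derivative_sub, derivative_pow, derivative_pow, derivative_add, derivative_mul,
      derivative_mul, derivative_natCast, derivative_sub, derivative_X_pow, derivative_one,
      hA, derivative_Lin, ← hA] at h2
    have h3 : (s : ℤ[X]) = p * τ := by rw [hτ]; push_cast; ring
    have h4 : (C ((p * (L + N) : ℕ) : ℤ) : ℤ[X]) = p * (L + N : ℕ) := by
      rw [map_natCast]; push_cast; ring
    have h5 : (C ((p * L : ℕ) : ℤ) : ℤ[X]) = p * L := by
      rw [map_natCast]; push_cast; ring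
    have h6 : (C (s : ℤ) : ℤ[X]) = p * τ := by
      rw [map_natCast, h3]
    rw [h4, h5, h6] at h2
    push_cast at h2 ⊢
    linear_combination h2
  have hmon : (X ^ s - 1 : (ZMod p)[X]).Monic := monic_Xs hs0
  -- `v'` is divisible by `p`
  have h2 : (p : ℤ[X]) ∣ derivative v := by
    rw [← red_eq_zero]
    have h3 := congrArg (red p) h1
    rw [map_add, map_mul, map_mul, map_mul, hrp, zero_mul, zero_mul, zero_add, map_sub, map_pow,
      red_X, map_one] at h3
    exact (hmon.mul_right_eq_zero_iff).1 h3.symm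
  obtain ⟨v1, hv1⟩ := h2
  have hpne : (p : ℤ[X]) ≠ 0 := by
    exact_mod_cast hp.ne_zero
  have h3 : (((L + N : ℕ) : ℤ[X]) * C b * A ^ (p * (L + N) - 1) - (L : ℤ[X]) * C b * A ^ (p * L - 1)) =
      ((p : ℤ[X]) * derivative w + (τ : ℤ[X]) * X ^ (s - 1) * v) + (X ^ s - 1) * v1 := by
    apply mul_left_cancel₀ hpne
    rw [h1, hv1]
    ring
  -- reduce modulo `p`
  obtain ⟨L', hL'⟩ := hL
  have h4 : (C (N : ZMod p)) * C (b : ZMod p) * red p A ^ (p * (L + N) - 1) =
      (C (τ : ZMod p)) * X ^ (s - 1) * red p v + (X ^ s - 1) * red p v1 := by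
    have h5 := congrArg (red p) h3
    have e1 : red p ((L + N : ℕ) : ℤ[X]) = C (N : ZMod p) := by
      rw [map_natCast, hL']
      push_cast
      have : ((p : ℕ) : (ZMod p)[X]) = 0 := by
        rw [← C_eq_natCast, hpz, C_0]
      rw [this, zero_mul, zero_add]
      rfl
    have e2 : red p (L : ℤ[X]) = 0 := by
      rw [hL']
      push_cast
      rw [map_mul, hrp, zero_mul]
    have e3 : red p (τ : ℤ[X]) = C (τ : ZMod p) := by
      rw [map_natCast]; rfl
    simp only [map_sub, map_add, map_mul, map_pow, e1, e2, e3, hrp, red_X, map_one, red_C,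
      zero_mul, sub_zero, zero_add] at h5
    exact h5
  have hs1 : (X : (ZMod p)[X]) * X ^ (s - 1) = X ^ s := by
    rw [← pow_succ', Nat.sub_add_cancel hs0]
  have h5 : (C (N : ZMod p)) * C (b : ZMod p) * (X * red p A ^ (p * (L + N) - 1)) =
      (C (τ : ZMod p)) * X ^ s * red p v + (X ^ s - 1) * (X * red p v1) := by
    linear_combination X * h4 + C (τ : ZMod p) * red p v * hs1
  -- differentiate again
  have hsz : (s : ZMod p) = 0 := by
    rw [hτ]; push_cast; rw [hpz, zero_mul]
  have dXs : derivative (X ^ s : (ZMod p)[X]) = 0 := by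
    rw [derivative_X_pow, hsz, C_0, zero_mul]
  have dv : derivative (red p v) = 0 := by
    rw [← red_derivative, hv1, map_mul, hrp, zero_mul]
  have dA : derivative (red p A) = C (b : ZMod p) := by
    rw [← red_derivative, hA, derivative_Lin, red_C]
  have h6 := congrArg derivative h5
  have e6 : (((p * (L + N) - 1 : ℕ)) : ZMod p) = -1 := by
    rw [Nat.cast_sub (by omega)]
    push_cast
    rw [hpz]
    ring
  have e7 : red p A ^ (p * (L + N) - 1) = red p A ^ (p * (L + N) - 2) * red p A := by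
    rw [← pow_succ]
    congr 1
    omega
  have e8 : p * (L + N) - 1 - 1 = p * (L + N) - 2 := by omega
  have e9 : red p A = C (a : ZMod p) + C (b : ZMod p) * X := red_Lin p a b
  simp only [derivative_mul, derivative_add, derivative_sub, derivative_C, dXs, dv, dA,
    derivative_X, derivative_one, derivative_pow, e6, e8, zero_mul, mul_zero, zero_add, add_zero,
    sub_self, one_mul] at h6
  have h7 : C (N : ZMod p) * C (b : ZMod p) * C (a : ZMod p) * red p A ^ (p * (L + N) - 2) =
      (X ^ s - 1) * (red p v1 + X * derivative (red p v1)) := by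
    rw [← h6, e7]
    have e10 : red p A ^ (p * (L + N) - 2) * red p A = red p A ^ (p * (L + N) - 2) *
      (C (a : ZMod p) + C (b : ZMod p) * X) := by rw [e9]
    rw [e10]
    simp only [map_neg, map_one]
    ring
  have h8 : (X ^ s - 1 : (ZMod p)[X]) ∣
      C ((N : ZMod p) * (b : ZMod p) * (a : ZMod p)) * red p A ^ (p * (L + N) - 2) := by
    rw [C_mul, C_mul, h7]
    exact Dvd.intro _ rfl
  have hu : IsUnit (C ((N : ZMod p) * (b : ZMod p) * (a : ZMod p)) : (ZMod p)[X]) := by
    rw [isUnit_C]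
    exact (mul_ne_zero (mul_ne_zero hNz hbz) haz).isUnit
  exact (hu.dvd_mul_left).1 h8

end Pool.Agent.R450.CA
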