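import Mathlib
import Pool.Agent.R450.CA.Key

set_option autoImplicit false

/-! Spatial periods divisible by `p`. -/

namespace Pool.Agent.R450.CA

open Polynomial

theorem In.add {N s : ℕ} {f g : ℤ[X]} (hf : In N s f) (hg : In N s g) : In N s (f + g) := by
  rw [in_iff] at *
  rw [map_add]
  exact dvd_add hf hg

theorem In.sub {N s : ℕ} {f g : ℤ[X]} (hf : In N s f) (hg : In N s g) : In N s (f - g) := by
  rw [in_iff] at *
  rw [map_sub]
  exact dvd_sub hf hg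

theorem In.of_dvd {N s : ℕ} {f : ℤ[X]} (hf : (X ^ s - 1 : ℤ[X]) ∣ f) : In N s f := by
  obtain ⟨g, rfl⟩ := hf
  exact ⟨0, g, by ring⟩

theorem red_Lin_pow {p : ℕ} (hp : p.Prime) (a b : ℤ) (r : ℕ) :
    (red p (Lin a b)) ^ (p ^ r) = C (a : ZMod p) + C (b : ZMod p) * X ^ (p ^ r) := by
  have : Fact p.Prime := ⟨hp⟩
  rw [red_Lin, add_pow_char_pow, mul_pow, ← C_pow, ← C_pow, ZMod.pow_card_pow, ZMod.pow_card_pow]

theorem X_pow_sub_dvd {R : Type*} [CommRing R] {s m n : ℕ} (h : s ∣ n) :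
    (X ^ s - 1 : R[X]) ∣ X ^ (m + n) - X ^ m := by
  obtain ⟨c, rfl⟩ := h
  have e : (X ^ (m + s * c) - X ^ m : R[X]) = X ^ m * ((X ^ s) ^ c - 1 ^ c) := by
    rw [pow_add, pow_mul, one_pow]; ring
  rw [e]
  exact (sub_dvd_pow_sub_pow _ _ _).mul_left _

/-- the trivial period `p ^ k (p ^ n - 1)` -/
theorem trivial_period {p k τ : ℕ} (hp : p.Prime) (hτ : ¬ p ∣ τ) (a b : ℤ) :
    In p (p ^ k * τ) (Lin a b ^ (p ^ k) * (Lin a b ^ (p ^ k * (p ^ τ.totient - 1)) - 1)) := by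
  have : Fact p.Prime := ⟨hp⟩
  rw [in_iff]
  have e0 : p ^ k + p ^ k * (p ^ τ.totient - 1) = p ^ (k + τ.totient) := by
    rw [pow_add, Nat.mul_sub, mul_one]
    apply Nat.add_sub_cancel'
    exact Nat.le_mul_of_pos_right _ (pow_pos hp.pos _)
  have e1 : Lin a b ^ (p ^ k) * (Lin a b ^ (p ^ k * (p ^ τ.totient - 1)) - 1) =
      Lin a b ^ (p ^ (k + τ.totient)) - Lin a b ^ (p ^ k) := by
    rw [mul_sub, mul_one, ← pow_add, e0]
  rw [e1, map_sub, map_pow, map_pow, red_Lin_pow hp, red_Lin_pow hp]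
  have e2 : (C (a : ZMod p) + C (b : ZMod p) * X ^ (p ^ (k + τ.totient)) -
      (C (a : ZMod p) + C (b : ZMod p) * X ^ (p ^ k))) =
      C (b : ZMod p) * (X ^ (p ^ (k + τ.totient)) - X ^ (p ^ k)) := by ring
  rw [e2]
  apply Dvd.dvd.mul_left
  rw [← e0]
  apply X_pow_sub_dvd
  apply Nat.mul_dvd_mul_left
  have h1 : p ^ τ.totient ≡ 1 [MOD τ] :=
    Nat.ModEq.pow_totient ((Nat.Prime.coprime_iff_not_dvd hp).2 hτ)
  exact (Nat.modEq_iff_dvd' (Nat.one_le_pow _ _ hp.pos)).1 h1.symm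

theorem no_survive {p s d : ℕ} {a b : ℤ} (hp : p.Prime) (hps : p ∣ s) (hs0 : 1 ≤ s)
    (ha : ¬ (p : ℤ) ∣ a) (hb : ¬ (p : ℤ) ∣ b)
    (hd : ∀ k, (∃ l, In p s (Lin a b ^ l * (Lin a b ^ k - 1))) → d ∣ k)
    (h : ∃ l, In (p ^ 2) s (Lin a b ^ l * (Lin a b ^ d - 1))) :
    ∃ j, In p s (Lin a b ^ j) := by
  have : Fact p.Prime := ⟨hp⟩
  obtain ⟨k, τ, hτ, hk⟩ := Nat.exists_eq_pow_mul_and_not_dvd (n := s) (by omega) p hp.ne_one
  have hk1 : 1 ≤ k := by
    rcases Nat.eq_zero_or_pos k with h0 | h0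
    · rw [h0, pow_zero, one_mul] at hk
      rw [hk] at hps
      exact absurd hps hτ
    · exact h0
  have hτ0 : 0 < τ := by
    rcases Nat.eq_zero_or_pos τ with h0 | h0
    · rw [h0] at hτ
      exact absurd (dvd_zero p) hτ
    · exact h0
  set n := τ.totient with hn
  have hn1 : 1 ≤ n := Nat.totient_pos.2 hτ0
  set N0 := p ^ n - 1 with hN0
  have hN0p : ¬ p ∣ N0 := by
    intro hc
    have h1 : p ∣ p ^ n := dvd_pow_self p (by omega)
    have h2 : 1 ≤ p ^ n := Nat.one_le_pow _ _ hp.pos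
    have h3 : p ∣ p ^ n - N0 := Nat.dvd_sub h1 hc
    have h4 : p ^ n - N0 = 1 := by omega
    rw [h4, Nat.dvd_one] at h3
    exact hp.ne_one h3
  set A := Lin a b with hA
  -- the trivial period is a multiple of `d`
  have hdK : d ∣ p ^ k * N0 := by
    apply hd
    refine ⟨p ^ k, ?_⟩
    have := trivial_period (k := k) hp hτ a b
    rwa [← hk] at this
  obtain ⟨c, hc⟩ := hdK
  obtain ⟨l, hl⟩ := h
  -- the trivial period survives
  have h1 : In (p ^ 2) s (A ^ l * (A ^ (p ^ k * N0) - 1)) := by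
    rw [hc, pow_mul]
    have e : ((A ^ d) ^ c - 1 : ℤ[X]) = (A ^ d - 1) * ∑ i ∈ Finset.range c, (A ^ d) ^ i := by
      rw [mul_comm]
      exact (geom_sum_mul (A ^ d) c).symm
    have e2 : A ^ l * ((A ^ d) ^ c - 1) =
        (∑ i ∈ Finset.range c, (A ^ d) ^ i) * (A ^ l * (A ^ d - 1)) := by
      rw [e]; ring
    rw [e2]
    exact hl.mul_left _
  set q := p ^ (k - 1) with hq
  have hq0 : 1 ≤ q := Nat.one_le_pow _ _ hp.pos
  have hqp : q * p = p ^ k := by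
    rw [hq, ← pow_succ, Nat.sub_add_cancel hk1]
  have h2 : In (p ^ 2) s (A ^ (q * (p * (p * l + N0))) - A ^ (q * (p * (p * l)))) := by
    have e : A ^ (q * (p * (p * l + N0))) - A ^ (q * (p * (p * l))) =
        A ^ (q * (p * (p * l)) - l) * (A ^ l * (A ^ (p ^ k * N0) - 1)) := by
      have hle : l ≤ q * (p * (p * l)) := by
        calc l = 1 * (1 * (1 * l)) := by ring
          _ ≤ q * (p * (p * l)) := by
            gcongr
            · exact hp.pos
            · exact hp.pos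
      rw [← mul_assoc (A ^ (q * (p * (p * l)) - l)), ← pow_add, Nat.sub_add_cancel hle, mul_sub,
        ← pow_add, mul_one, ← hqp]
      congr 2
      ring
    rw [e]
    exact h1.mul_left _
  -- Frobenius
  have hF : ∀ j : ℕ, ((p ^ 2 : ℕ) : ℤ[X]) ∣ A ^ (q * (p * j)) - expand ℤ q (A ^ (p * j)) := by
    intro j
    have f1 : (p : ℤ[X]) ∣ A ^ q - expand ℤ q A := by
      rw [← red_eq_zero, map_sub, map_pow, hA, hq, red_Lin_pow hp]
      have : expand ℤ (p ^ (k - 1)) (Lin a b) = C a + C b * X ^ (p ^ (k - 1)) := by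
        simp [Lin]
      rw [this, map_add, map_mul, map_pow, red_C, red_C, red_X, sub_self]
    have f2 := dvd_sub_pow_of_dvd_sub (p := p) f1 1
    rw [pow_one] at f2
    have f3 : ((p : ℤ[X])) ^ (1 + 1) ∣ ((A ^ q) ^ p) ^ j - ((expand ℤ q A) ^ p) ^ j :=
      f2.trans (sub_dvd_pow_sub_pow _ _ _)
    rw [← pow_mul, ← pow_mul, ← pow_mul, ← map_pow] at f3
    push_cast
    exact f3
  have h3 : In (p ^ 2) s (expand ℤ q (A ^ (p * (p * l + N0)) - A ^ (p * (p * l)))) := by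
    apply h2.of_dvd_sub
    rw [map_sub]
    have := dvd_sub (hF (p * l + N0)) (hF (p * l))
    convert this using 1
    ring
  set s' := p * τ with hs'
  have hqs : q * s' = s := by
    rw [hs', ← mul_assoc, hqp, ← hk]
  have hs'0 : 1 ≤ s' := Nat.mul_pos hp.pos hτ0
  have h4 : In (p ^ 2) s' (A ^ (p * (p * l + N0)) - A ^ (p * (p * l))) := by
    rw [in_iff] at h3 ⊢
    have : Nontrivial (ZMod (p ^ 2)) := by
      have h1 : Fact (1 < p ^ 2) := ⟨Nat.one_lt_pow (by norm_num) hp.one_lt⟩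
      exact ZMod.nontrivial _
    apply dvd_of_expand hq0 hs'0
    rw [hqs]
    have e : red (p ^ 2) (expand ℤ q (A ^ (p * (p * l + N0)) - A ^ (p * (p * l)))) =
        expand (ZMod (p ^ 2)) q (red (p ^ 2) (A ^ (p * (p * l + N0)) - A ^ (p * (p * l)))) := by
      rw [coe_mapRingHom, map_expand]
    rw [← e]
    exact h3
  have h5 := key hp (Dvd.intro _ rfl) hs'0 ha hb (Dvd.intro l rfl) hN0p h4
  refine ⟨(p * (p * l + N0) - 2) * q, ?_⟩
  rw [in_iff, map_pow, pow_mul]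
  have e : (X ^ s - 1 : (ZMod p)[X]) = (X ^ s' - 1) ^ q := by
    rw [hq, sub_pow_char_pow, one_pow, ← pow_mul, mul_comm, ← hq, hqs]
  rw [e]
  exact pow_dvd_pow_of_dvd h5 q

end Pool.Agent.R450.CA
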