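import Mathlib
import Pool.Agent.R450.CA.Descent

set_option autoImplicit false

/-! Spatial periods prime to `p`. -/

namespace Pool.Agent.R450.CA

open Polynomial

/-- cancelling `p` -/
theorem In.cancel {p s : ℕ} (hp : p.Prime) (hs0 : 1 ≤ s) {f : ℤ[X]}
    (h : In (p ^ 2) s ((p : ℤ[X]) * f)) : In p s f := by
  have : Fact p.Prime := ⟨hp⟩
  obtain ⟨w, v, hwv⟩ := h
  have hrp : red p (p : ℤ[X]) = 0 := red_eq_zero.2 dvd_rfl
  have hmon : (X ^ s - 1 : (ZMod p)[X]).Monic := monic_Xs hs0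
  have h1 : (p : ℤ[X]) ∣ v := by
    rw [← red_eq_zero]
    have h3 := congrArg (red p) hwv
    have e : ((p ^ 2 : ℕ) : ℤ[X]) = p * p := by push_cast; ring
    rw [e, map_add, map_mul, map_mul, map_mul, map_mul, hrp, zero_mul, zero_mul, zero_mul, zero_add,
      map_sub, map_pow, red_X, map_one] at h3
    exact (hmon.mul_right_eq_zero_iff).1 h3.symm
  obtain ⟨v1, hv1⟩ := h1
  have hpne : (p : ℤ[X]) ≠ 0 := by
    exact_mod_cast hp.ne_zero
  refine ⟨w, v1, ?_⟩
  apply mul_left_cancel₀ hpne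
  rw [hwv, hv1]
  push_cast
  ring

/-- cancelling a unit modulo `p` -/
theorem In.cancel_unit {p s d : ℕ} (hp : p.Prime) (hd : ¬ p ∣ d) {f : ℤ[X]}
    (h : In p s ((d : ℤ[X]) * f)) : In p s f := by
  have : Fact p.Prime := ⟨hp⟩
  rw [in_iff, map_mul, map_natCast] at h
  rw [in_iff]
  have hdz : (d : ZMod p) ≠ 0 := by
    rw [Ne, ZMod.natCast_eq_zero_iff]; exact hd
  have hu : IsUnit ((d : ℕ) : (ZMod p)[X]) := by
    rw [← C_eq_natCast, isUnit_C]
    exact hdz.isUnit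
  exact (hu.dvd_mul_left).1 h

theorem lift_one {p s d : ℕ} {a b : ℤ} (hp : p.Prime) (hps : ¬ p ∣ s) (hs0 : 1 ≤ s)
    (hd : ∀ k, (∃ l, In p s (Lin a b ^ l * (Lin a b ^ k - 1))) → d ∣ k)
    (h : ∃ l, In (p ^ 2) s (Lin a b ^ l * (Lin a b ^ d - 1)))
    (h' : ∃ l, In (p ^ 2) s (Lin (a + p) b ^ l * (Lin (a + p) b ^ d - 1))) :
    ∃ j, In p s (Lin a b ^ j) := by
  have hn1 : 1 ≤ s.totient := Nat.totient_pos.2 hs0
  have hdK : d ∣ p ^ s.totient - 1 := by
    apply hd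
    refine ⟨p ^ 0, ?_⟩
    have := trivial_period (k := 0) hp hps a b
    simpa using this
  have hpd : ¬ p ∣ d := by
    intro hc
    have h0 := hc.trans hdK
    have h1 : p ∣ p ^ s.totient := dvd_pow_self p (by omega)
    have h2 : 1 ≤ p ^ s.totient := Nat.one_le_pow _ _ hp.pos
    have h3 : p ∣ p ^ s.totient - (p ^ s.totient - 1) := Nat.dvd_sub h1 h0
    have h4 : p ^ s.totient - (p ^ s.totient - 1) = 1 := by omega
    rw [h4, Nat.dvd_one] at h3
    exact hp.ne_one h3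
  have hd1 : 1 ≤ d := by
    rcases Nat.eq_zero_or_pos d with h0 | h0
    · exact absurd (h0 ▸ dvd_zero p) hpd
    · exact h0
  obtain ⟨l, hl⟩ := h
  obtain ⟨l', hl'⟩ := h'
  have eA : Lin (a + p) b = Lin a b + p := by
    simp [Lin]; ring
  rw [eA] at hl'
  set A := Lin a b with hA
  have e1 : In (p ^ 2) s (A ^ (p * (l + l')) * (A ^ d - 1)) := by
    have e : A ^ (p * (l + l')) * (A ^ d - 1) = A ^ (p * (l + l') - l) * (A ^ l * (A ^ d - 1)) := by
      have hle : l ≤ p * (l + l') := by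
        calc l ≤ l + l' := by omega
          _ = 1 * (l + l') := (one_mul _).symm
          _ ≤ p * (l + l') := Nat.mul_le_mul_right _ hp.pos
      rw [← mul_assoc, ← pow_add, Nat.sub_add_cancel hle]
    rw [e]
    exact hl.mul_left _
  have e2 : In (p ^ 2) s ((A + p) ^ (p * (l + l')) * ((A + p) ^ d - 1)) := by
    have e : (A + p) ^ (p * (l + l')) * ((A + p) ^ d - 1) =
        (A + p) ^ (p * (l + l') - l') * ((A + p) ^ l' * ((A + p) ^ d - 1)) := by
      have hle : l' ≤ p * (l + l') := by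
        calc l' ≤ l + l' := by omega
          _ = 1 * (l + l') := (one_mul _).symm
          _ ≤ p * (l + l') := Nat.mul_le_mul_right _ hp.pos
      rw [← mul_assoc, ← pow_add, Nat.sub_add_cancel hle]
    rw [e]
    exact hl'.mul_left _
  have f1 : ∃ u : ℤ[X], (A + p) ^ (p * (l + l')) = A ^ (p * (l + l')) + (p : ℤ[X]) ^ 2 * u := by
    have g1 : (p : ℤ[X]) ∣ (A + p) - A := by simp
    have g2 := dvd_sub_pow_of_dvd_sub (p := p) g1 1
    rw [pow_one] at g2
    have g3 : ((p : ℤ[X])) ^ (1 + 1) ∣ ((A + p) ^ p) ^ (l + l') - (A ^ p) ^ (l + l') :=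
      g2.trans (sub_dvd_pow_sub_pow _ _ _)
    rw [← pow_mul, ← pow_mul] at g3
    obtain ⟨u, hu⟩ := g3
    refine ⟨u, ?_⟩
    rw [show (1 + 1 : ℕ) = 2 from rfl] at hu
    linear_combination hu
  obtain ⟨u, hu⟩ := f1
  obtain ⟨k, hk⟩ := powAddExpansion A (p : ℤ[X]) d
  have e3 := e2.sub e1
  have e4 : In (p ^ 2) s ((p : ℤ[X]) * ((d : ℤ[X]) * A ^ (p * (l + l') + (d - 1)))) := by
    apply e3.of_dvd_sub
    refine ⟨A ^ (p * (l + l')) * k + u * ((A + p) ^ d - 1), ?_⟩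
    rw [hu, hk, pow_add]
    push_cast
    ring
  exact ⟨_, (e4.cancel hp hs0).cancel_unit hp hpd⟩

end Pool.Agent.R450.CA
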