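import Mathlib
import Pool.Agent.R450.CA.Coprime

set_option autoImplicit false

/-! The pair `(c, c)` with `2 c` a primitive root has a period divisible by `p - 1` and by the
spatial period. -/

namespace Pool.Agent.R450.CA

open Polynomial

theorem In.expand {N s : ℕ} {f : ℤ[X]} (h : In N s f) (r : ℕ) :
    In N s (Polynomial.expand ℤ r f) := by
  obtain ⟨w, v, hwv⟩ := h
  have h1 : (X ^ s - 1 : ℤ[X]) ∣ (X ^ r) ^ s - 1 := by
    rw [← pow_mul, mul_comm, pow_mul]
    have := sub_dvd_pow_sub_pow (X ^ s : ℤ[X]) 1 r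
    rwa [one_pow] at this
  obtain ⟨u, hu⟩ := h1
  refine ⟨Polynomial.expand ℤ r w, u * Polynomial.expand ℤ r v, ?_⟩
  rw [hwv, map_add, map_mul, map_mul, map_sub, map_pow, expand_X, map_one, map_natCast, hu]
  ring

/-- the first part: evaluation at `1` -/
theorem full_one {p s l P : ℕ} {c : ℤ} (hp : p.Prime)
    (hc : orderOf (2 * c : ZMod p) = p - 1) (hc0 : (2 * c : ZMod p) ≠ 0)
    (h : In p s (Lin c c ^ l * (Lin c c ^ P - 1))) : p - 1 ∣ P := by
  have : Fact p.Prime := ⟨hp⟩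
  obtain ⟨w, v, hwv⟩ := h
  have h1 := congrArg (eval 1) hwv
  have e0 : eval 1 (Lin c c) = 2 * c := by
    simp [Lin]; ring
  have e1 : eval 1 (X ^ s - 1 : ℤ[X]) = 0 := by simp
  rw [eval_mul, eval_pow, eval_sub, eval_pow, eval_one, e0, eval_add, eval_mul, eval_mul, e1,
    zero_mul, add_zero, eval_natCast] at h1
  have h2 := congrArg (Int.cast : ℤ → ZMod p) h1
  push_cast at h2
  rw [ZMod.natCast_self, zero_mul] at h2
  have h3 : (2 * c : ZMod p) ^ P = 1 := by
    rcases mul_eq_zero.1 h2 with h4 | h4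
    · exact absurd (eq_zero_of_pow_eq_zero h4) hc0
    · exact sub_eq_zero.1 h4
  rw [← hc]
  exact orderOf_dvd_of_pow_eq_one h3

/-- reducing exponents modulo `s` -/
theorem dvd_X_pow_sub {R : Type*} [CommRing R] (s n : ℕ) :
    (X ^ s - 1 : R[X]) ∣ X ^ n - X ^ (n % s) := by
  conv_lhs => skip
  have h := X_pow_sub_dvd (R := R) (s := s) (m := n % s) (n := s * (n / s)) (Dvd.intro _ rfl)
  rwa [Nat.mod_add_div] at h

/-- the comparison of coefficients -/
theorem compare {p s P r : ℕ} (hp : p.Prime) (hp2 : p ≠ 2) (hs0 : 1 ≤ s) (hP : 2 ∣ P)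
    (hr : r % 2 = 1) (hrs : ∀ t, t ∣ 2 * r → t % 2 = 1 → t ∣ r)
    (h : (X ^ s - 1 : (ZMod p)[X]) ∣ X ^ (P + r) + X ^ P - X ^ r - 1) : s ∣ P := by
  have : Fact p.Prime := ⟨hp⟩
  by_contra hsP
  have hs2 : 2 ≤ s := by
    rcases Nat.lt_or_ge s 2 with h1 | h1
    · have : s = 1 := by omega
      rw [this] at hsP
      exact absurd (one_dvd P) hsP
    · exact h1
  have hm : (X ^ s - 1 : (ZMod p)[X]).Monic := monic_Xs hs0
  have hz : (X ^ ((P + r) % s) + X ^ (P % s) - X ^ (r % s) - 1 : (ZMod p)[X]) = 0 := by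
    have h1 : (X ^ s - 1 : (ZMod p)[X]) ∣
        X ^ ((P + r) % s) + X ^ (P % s) - X ^ (r % s) - 1 := by
      have a1 := dvd_X_pow_sub (R := ZMod p) s (P + r)
      have a2 := dvd_X_pow_sub (R := ZMod p) s P
      have a3 := dvd_X_pow_sub (R := ZMod p) s r
      have a4 := dvd_add (dvd_sub (dvd_sub h a1) a2) a3
      convert a4 using 1
      ring
    have h9 : (X ^ s - 1 : (ZMod p)[X]).degree = s := by
      have := degree_X_pow_sub_C (R := ZMod p) (n := s) (by omega) 1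
      simpa using this
    have h10 := (modByMonic_eq_zero_iff_dvd hm).2 h1
    rwa [(modByMonic_eq_self_iff hm).2] at h10
    rw [h9]
    have hlt : ∀ n : ℕ, (X ^ (n % s) : (ZMod p)[X]).degree < s := by
      intro n
      rw [degree_X_pow]
      exact_mod_cast Nat.mod_lt _ (by omega)
    have h1lt : (1 : (ZMod p)[X]).degree < s := by
      rw [degree_one]
      exact_mod_cast (by omega : 0 < s)
    refine lt_of_le_of_lt (degree_sub_le _ _) (max_lt ?_ h1lt)
    refine lt_of_le_of_lt (degree_sub_le _ _) (max_lt ?_ (hlt _))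
    exact lt_of_le_of_lt (degree_add_le _ _) (max_lt (hlt _) (hlt _))
  have hPs : P % s ≠ 0 := fun h0 => hsP (Nat.dvd_of_mod_eq_zero h0)
  have h2ne : (2 : ZMod p) ≠ 0 := by
    intro h0
    have h1 : ((2 : ℕ) : ZMod p) = 0 := by exact_mod_cast h0
    rw [ZMod.natCast_eq_zero_iff] at h1
    exact hp2 ((Nat.prime_dvd_prime_iff_eq hp Nat.prime_two).1 h1)
  -- coefficient of `1`
  have c0 := congrArg (fun f => coeff f 0) hz
  simp only [coeff_sub, coeff_add, coeff_X_pow, coeff_one, coeff_zero] at c0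
  rw [if_neg (show ¬ (0 = P % s) from fun h0 => hPs h0.symm)] at c0
  have hrs0 : r % s ≠ 0 := by
    intro h0
    have h1 : (P + r) % s ≠ 0 := by
      rw [Nat.add_mod, h0, add_zero, Nat.mod_mod]
      exact hPs
    rw [if_neg (show ¬ (0 = (P + r) % s) from fun h0 => h1 h0.symm), h0] at c0
    apply h2ne
    rw [if_pos rfl, if_pos trivial] at c0
    linear_combination -c0
  rw [if_neg (show ¬ (0 = r % s) from fun h0 => hrs0 h0.symm)] at c0
  have hPr : (P + r) % s = 0 := by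
    by_contra h0
    rw [if_neg (show ¬ (0 = (P + r) % s) from fun h1 => h0 h1.symm)] at c0
    simp at c0
  -- coefficient of `X ^ (P % s)`
  have c1 := congrArg (fun f => coeff f (P % s)) hz
  simp only [coeff_sub, coeff_add, coeff_X_pow, coeff_one, coeff_zero] at c1
  rw [if_neg hPs, hPr, if_neg hPs] at c1
  have hPr2 : P % s = r % s := by
    by_contra h0
    rw [if_neg h0] at c1
    simp at c1
  -- conclusion
  have d1 : s ∣ 2 * r := by
    have h1 : (r + r) % s = 0 := by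
      rw [Nat.add_mod, ← hPr2]
      rw [Nat.add_mod, ← hPr2] at hPr
      exact hPr
    rw [two_mul]
    exact Nat.dvd_of_mod_eq_zero h1
  rcases Nat.mod_two_eq_zero_or_one s with h0 | h0
  · have h1 : P % 2 = r % 2 := by
      obtain ⟨t, ht⟩ := Nat.dvd_of_mod_eq_zero h0
      have a1 : P % s % 2 = P % 2 := Nat.mod_mod_of_dvd _ ⟨t, ht⟩
      have a2 : r % s % 2 = r % 2 := Nat.mod_mod_of_dvd _ ⟨t, ht⟩
      rw [← a1, ← a2, hPr2]
    omega
  · exact hrs0 (Nat.mod_eq_zero_of_dvd (hrs s d1 h0))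

theorem full {p s l P : ℕ} {c : ℤ} (hp : p.Prime) (hp2 : p ≠ 2) (hs0 : 1 ≤ s)
    (hc : orderOf (2 * c : ZMod p) = p - 1) (hc0 : (2 * c : ZMod p) ≠ 0)
    (h : In p s (Lin c c ^ l * (Lin c c ^ P - 1))) : p - 1 ∣ P ∧ s ∣ P := by
  have : Fact p.Prime := ⟨hp⟩
  have h1 := full_one hp hc hc0 h
  refine ⟨h1, ?_⟩
  have hp3 : p % 2 = 1 := by
    rcases hp.eq_two_or_odd with h0 | h0
    · exact absurd h0 hp2
    · exact h0
  have hP : 2 ∣ P := by
    refine Dvd.dvd.trans ?_ h1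
    omega
  have hcz : ((c : ℤ) : ZMod p) ≠ 0 := by
    intro h0
    rw [h0, mul_zero] at hc0
    exact hc0 rfl
  set A := Lin c c with hA
  -- the reflected relation
  set B := Polynomial.expand ℤ (s - 1) A with hB
  have hXB : (X ^ s - 1 : ℤ[X]) ∣ X * B - A := by
    have e : X * B - A = C c * (X ^ s - 1) := by
      have e1 : (X ^ s : ℤ[X]) = X * X ^ (s - 1) := by
        rw [← pow_succ', Nat.sub_add_cancel hs0]
      rw [hB, hA, e1]
      simp [Lin]
      ring
    rw [e]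
    exact Dvd.intro_left _ rfl
  have h2 : In p s (X ^ (l + P) * (B ^ l * (B ^ P - 1))) := by
    have := h.expand (s - 1)
    rw [map_mul, map_sub, map_pow, map_pow, map_one, ← hB] at this
    exact this.mul_left _
  have h3 : In p s (A ^ (l + P) - X ^ P * A ^ l) := by
    have e1 : (X ^ s - 1 : ℤ[X]) ∣ (X * B) ^ (l + P) - A ^ (l + P) :=
      hXB.trans (sub_dvd_pow_sub_pow _ _ _)
    have e2 : (X ^ s - 1 : ℤ[X]) ∣ (X * B) ^ l - A ^ l :=
      hXB.trans (sub_dvd_pow_sub_pow _ _ _)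
    have e3 := (h2.sub (In.of_dvd (N := p) e1)).add (In.of_dvd (N := p) (e2.mul_left (X ^ P)))
    convert e3 using 1
    rw [mul_pow, mul_pow, pow_add, pow_add]
    ring
  have h4 : In p s ((X ^ P - 1) * A ^ l) := by
    have e3 := h.sub h3
    convert e3 using 1
    rw [pow_add]
    ring
  have h5 : In p s ((X ^ P - 1) * A ^ (p ^ l)) := by
    have hle : l ≤ p ^ l := (Nat.lt_pow_self hp.one_lt).le
    have e : (X ^ P - 1) * A ^ (p ^ l) = A ^ (p ^ l - l) * ((X ^ P - 1) * A ^ l) := by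
      have e1 : A ^ (p ^ l) = A ^ (p ^ l - l) * A ^ l := by
        rw [← pow_add, Nat.sub_add_cancel hle]
      rw [e1]; ring
    rw [e]
    exact h4.mul_left _
  rw [in_iff, map_mul, map_pow, hA, red_Lin_pow hp, map_sub, map_pow, red_X, map_one] at h5
  have hu : IsUnit (C (c : ZMod p) : (ZMod p)[X]) := isUnit_C.2 hcz.isUnit
  have h6 : (X ^ s - 1 : (ZMod p)[X]) ∣ X ^ (P + p ^ l) + X ^ P - X ^ (p ^ l) - 1 := by
    rw [← hu.dvd_mul_left]
    convert h5 using 1
    rw [pow_add]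
    ring
  refine compare hp hp2 hs0 hP ?_ ?_ h6
  · rw [Nat.pow_mod, hp3]; simp
  · intro t ht ht2
    have h7 : Nat.Coprime t 2 := by
      rw [Nat.coprime_comm, Nat.Prime.coprime_iff_not_dvd Nat.prime_two]
      omega
    exact h7.dvd_of_dvd_mul_left ht

/-- periods of monomials -/
theorem mono_period {p s K : ℕ} {a b : ℤ} (hp : p.Prime) (hab : (p : ℤ) ∣ a ∨ (p : ℤ) ∣ b)
    (h1 : p - 1 ∣ K) (h2 : s ∣ K) : In p s (Lin a b ^ 1 * (Lin a b ^ K - 1)) := by
  have : Fact p.Prime := ⟨hp⟩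
  rw [in_iff, map_mul, map_pow, map_sub, map_pow, map_one, red_Lin, pow_one]
  have key : ∀ x : ZMod p, x * x ^ K = x := by
    intro x
    obtain ⟨c, hc⟩ := h1
    by_cases hx : x = 0
    · rw [hx, zero_mul]
    · rw [hc, pow_mul, ZMod.pow_card_sub_one_eq_one hx, one_pow, mul_one]
  rcases hab with h0 | h0
  · have ha : ((a : ℤ) : ZMod p) = 0 := by rwa [ZMod.intCast_zmod_eq_zero_iff_dvd]
    rw [ha, C_0, zero_add, mul_pow, ← C_pow]
    have e : (C (b : ZMod p) * X * (C ((b : ZMod p) ^ K) * X ^ K - 1) : (ZMod p)[X]) =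
        X * C (b : ZMod p) * (X ^ (0 + K) - X ^ 0) := by
      have e1 : (C (b : ZMod p) * C ((b : ZMod p) ^ K) : (ZMod p)[X]) = C (b : ZMod p) := by
        rw [← C_mul, key]
      rw [zero_add, pow_zero]
      linear_combination X * X ^ K * e1
    rw [e]
    exact (X_pow_sub_dvd h2).mul_left _
  · have hb : ((b : ℤ) : ZMod p) = 0 := by rwa [ZMod.intCast_zmod_eq_zero_iff_dvd]
    rw [hb, C_0, zero_mul, add_zero, ← C_pow]
    have e1 : (C (a : ZMod p) * C ((a : ZMod p) ^ K) : (ZMod p)[X]) = C (a : ZMod p) := by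
      rw [← C_mul, key]
    have e : (C (a : ZMod p) * (C ((a : ZMod p) ^ K) - 1) : (ZMod p)[X]) = 0 := by
      linear_combination e1
    rw [e]
    exact dvd_zero _

end Pool.Agent.R450.CA
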