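import Mathlib
import Pool.Agent.R450.CA.Full

set_option autoImplicit false

/-! Assembling the growth of the maximal period. -/

namespace Pool.Agent.R450.CA

open Polynomial

/-- the ring `ℤ[X]/(X ^ s - 1)` -/
abbrev SS (s : ℕ) : Type := AdjoinRoot (X ^ s - 1 : ℤ[X])

theorem dvd_mk_iff {p m s : ℕ} {f : ℤ[X]} :
    ((p : SS s)) ^ m ∣ AdjoinRoot.mk (X ^ s - 1 : ℤ[X]) f ↔ In (p ^ m) s f := by
  constructor
  · rintro ⟨z, hz⟩
    obtain ⟨w, rfl⟩ := AdjoinRoot.mk_surjective z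
    have h1 : AdjoinRoot.mk (X ^ s - 1 : ℤ[X]) (f - (p : ℤ[X]) ^ m * w) = 0 := by
      rw [map_sub, hz, map_mul, map_pow, map_natCast, sub_self]
    rw [AdjoinRoot.mk_eq_zero] at h1
    obtain ⟨v, hv⟩ := h1
    refine ⟨w, v, ?_⟩
    push_cast
    linear_combination hv
  · rintro ⟨w, v, hwv⟩
    refine ⟨AdjoinRoot.mk _ w, ?_⟩
    rw [hwv, map_add, map_mul, map_mul, AdjoinRoot.mk_self, zero_mul, add_zero, map_natCast]
    push_cast
    rfl

theorem ps_iff {p m s k : ℕ} {A : ℤ[X]} :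
    PS p (AdjoinRoot.mk (X ^ s - 1 : ℤ[X]) A) m k ↔ ∃ l, In (p ^ m) s (A ^ l * (A ^ k - 1)) := by
  unfold PS
  refine exists_congr fun l => ?_
  rw [← dvd_mk_iff, map_mul, map_sub, map_pow, map_pow, map_one]

theorem reg {p s : ℕ} (hp : p.Prime) (hs0 : 1 ≤ s) (z : SS s) (hz : (p : SS s) * z = 0) : z = 0 := by
  have : Fact p.Prime := ⟨hp⟩
  obtain ⟨f, rfl⟩ := AdjoinRoot.mk_surjective z
  have h1 : AdjoinRoot.mk (X ^ s - 1 : ℤ[X]) ((p : ℤ[X]) * f) = 0 := by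
    rw [map_mul, map_natCast, hz]
  rw [AdjoinRoot.mk_eq_zero] at h1 ⊢
  obtain ⟨v, hv⟩ := h1
  have hrp : red p (p : ℤ[X]) = 0 := red_eq_zero.2 dvd_rfl
  have hmon : (X ^ s - 1 : (ZMod p)[X]).Monic := monic_Xs hs0
  have h2 : (p : ℤ[X]) ∣ v := by
    rw [← red_eq_zero]
    have h3 := congrArg (red p) hv
    rw [map_mul, hrp, zero_mul, map_mul, map_sub, map_pow, red_X, map_one] at h3
    exact (hmon.mul_right_eq_zero_iff).1 h3.symm
  obtain ⟨v1, hv1⟩ := h2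
  have hpne : (p : ℤ[X]) ≠ 0 := by
    exact_mod_cast hp.ne_zero
  refine ⟨v1, ?_⟩
  apply mul_left_cancel₀ hpne
  rw [hv, hv1]
  ring

/-- the period of `a + b X` modulo `p ^ m` -/
noncomputable def per (p s m : ℕ) (a b : ℤ) : ℕ :=
  sInf {k | 1 ≤ k ∧ ∃ l, In (p ^ m) s (Lin a b ^ l * (Lin a b ^ k - 1))}

theorem per_spec {p s m : ℕ} (hp : p.Prime) (hp2 : p ≠ 2) (hs0 : 1 ≤ s) (a b : ℤ) :
    1 ≤ per p s (m + 1) a b ∧ ∀ k, (∃ l, In (p ^ (m + 1)) s (Lin a b ^ l * (Lin a b ^ k - 1))) ↔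
      per p s (m + 1) a b ∣ k := by
  have hne : ∀ m : ℕ, ∃ K, 1 ≤ K ∧ PS p (AdjoinRoot.mk (X ^ s - 1 : ℤ[X]) (Lin a b)) (m + 1) K := by
    intro m
    induction m with
    | zero =>
      obtain ⟨k, τ, hτ, hk⟩ := Nat.exists_eq_pow_mul_and_not_dvd (n := s) (by omega) p hp.ne_one
      have hτ0 : 0 < τ := by
        rcases Nat.eq_zero_or_pos τ with h0 | h0
        · rw [h0] at hτ
          exact absurd (dvd_zero p) hτ
        · exact h0
      refine ⟨p ^ k * (p ^ τ.totient - 1), ?_, ?_⟩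
      · apply Nat.mul_pos (pow_pos hp.pos _)
        have : 1 < p ^ τ.totient := Nat.one_lt_pow (Nat.totient_pos.2 hτ0).ne' hp.one_lt
        omega
      · rw [ps_iff, zero_add, pow_one]
        have := trivial_period (k := k) hp hτ a b
        rw [← hk] at this
        exact ⟨_, this⟩
    | succ m ih =>
      obtain ⟨K, hK1, hK⟩ := ih
      exact ⟨p * K, Nat.mul_pos hp.pos hK1, hK.step hp hp2 (by omega)⟩
  obtain ⟨K, hK1, hK⟩ := hne m
  rw [ps_iff] at hK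
  have hmem : per p s (m + 1) a b ∈
      {k | 1 ≤ k ∧ ∃ l, In (p ^ (m + 1)) s (Lin a b ^ l * (Lin a b ^ k - 1))} :=
    Nat.sInf_mem ⟨K, hK1, hK⟩
  refine ⟨hmem.1, ?_⟩
  intro k
  rw [← ps_iff]
  have hcl := closed_PS p (AdjoinRoot.mk (X ^ s - 1 : ℤ[X]) (Lin a b)) (m + 1)
  apply hcl.dvd_iff (k := k)
  · exact ps_iff.2 hmem.2
  · exact hmem.1
  · intro k' hk' hk0
    exact Nat.sInf_le ⟨hk0, ps_iff.1 hk'⟩

theorem per_le {p s m : ℕ} (hp : p.Prime) (hp2 : p ≠ 2) (hs0 : 1 ≤ s) (a b : ℤ) :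
    per p s (m + 2) a b ≤ p * per p s (m + 1) a b := by
  have h1 := per_spec (m := m) hp hp2 hs0 a b
  have h2 := per_spec (m := m + 1) hp hp2 hs0 a b
  have h3 : per p s (m + 2) a b ∣ p * per p s (m + 1) a b := by
    rw [← h2.2, ← ps_iff]
    apply PS.step hp hp2 (by omega)
    rw [ps_iff, h1.2]
  exact Nat.le_of_dvd (Nat.mul_pos hp.pos h1.1) h3

/-- a pair whose period does not survive modulo `p ^ 2` has periods growing by `p` each time -/
theorem per_growth {p s : ℕ} (hp : p.Prime) (hp2 : p ≠ 2) (hs0 : 1 ≤ s) {a b : ℤ}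
    (hn : ¬ ∃ l, In (p ^ 2) s (Lin a b ^ l * (Lin a b ^ (per p s 1 a b) - 1))) (m : ℕ) :
    per p s (m + 1) a b = p ^ m * per p s 1 a b := by
  have h1 := per_spec (m := 0) hp hp2 hs0 a b
  have h2 := per_spec (m := m) hp hp2 hs0 a b
  rw [zero_add] at h1
  have hg := growth (p := p) (y := AdjoinRoot.mk (X ^ s - 1 : ℤ[X]) (Lin a b)) hp hp2
    (reg hp hs0) (d := per p s 1 a b) (fun k => by rw [ps_iff]; exact h1.2 k)
    (by rw [ps_iff]; exact hn) m
  apply Nat.dvd_antisymm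
  · rw [← h2.2, ← ps_iff, hg]
  · rw [← hg, ps_iff, h2.2]

theorem per_nilpotent {p s : ℕ} (hp : p.Prime) (hp2 : p ≠ 2) (hs0 : 1 ≤ s) {a b : ℤ} {j : ℕ}
    (h : In p s (Lin a b ^ j)) : per p s 1 a b = 1 := by
  have h1 := per_spec (m := 0) hp hp2 hs0 a b
  rw [zero_add] at h1
  have h2 : per p s 1 a b ∣ 1 := by
    rw [← h1.2, pow_one]
    refine ⟨j, ?_⟩
    rw [mul_comm]
    exact h.mul_left _
  exact Nat.dvd_one.1 h2

theorem exists_primitive {p : ℕ} (hp : p.Prime) : ∃ g : ZMod p, g ≠ 0 ∧ orderOf g = p - 1 := by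
  have : Fact p.Prime := ⟨hp⟩
  obtain ⟨u, hu⟩ := IsCyclic.exists_generator (α := (ZMod p)ˣ)
  refine ⟨u, u.ne_zero, ?_⟩
  rw [orderOf_units, orderOf_eq_card_of_forall_mem_zpowers hu, Nat.card_eq_fintype_card,
    ZMod.card_units]

/-- the existence of a good pair -/
theorem exists_good {p s D : ℕ} (hp : p.Prime) (hp2 : p ≠ 2) (hs0 : 1 ≤ s)
    (hD : ∀ a b : ℤ, per p s 1 a b ≤ D) (hD' : ∃ a b : ℤ, per p s 1 a b = D) :
    ∃ a b : ℤ, per p s 1 a b = D ∧
      ¬ ∃ l, In (p ^ 2) s (Lin a b ^ l * (Lin a b ^ (per p s 1 a b) - 1)) := by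
  have : Fact p.Prime := ⟨hp⟩
  have hp3 : 3 ≤ p := by
    have := hp.two_le
    omega
  obtain ⟨g, hg0, hg⟩ := exists_primitive hp
  have h2ne : (2 : ZMod p) ≠ 0 := by
    intro h0
    have h1 : ((2 : ℕ) : ZMod p) = 0 := by exact_mod_cast h0
    rw [ZMod.natCast_eq_zero_iff] at h1
    exact hp2 ((Nat.prime_dvd_prime_iff_eq hp Nat.prime_two).1 h1)
  obtain ⟨c, hc⟩ := ZMod.intCast_surjective (g / 2)
  have hc2 : (2 * c : ZMod p) = g := by
    rw [hc]; field_simp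
  have hfull : ∀ k, (∃ l, In (p ^ (0 + 1)) s (Lin c c ^ l * (Lin c c ^ k - 1))) →
      p - 1 ∣ k ∧ s ∣ k := by
    rintro k ⟨l, hl⟩
    rw [zero_add, pow_one] at hl
    exact full hp hp2 hs0 (by rw [hc2, hg]) (by rw [hc2]; exact hg0) hl
  have hcs := per_spec (m := 0) hp hp2 hs0 c c
  have hcc := hfull _ ((hcs.2 _).2 dvd_rfl)
  rw [zero_add] at hcs hcc
  have hD2 : 2 ≤ D := by
    calc 2 ≤ p - 1 := by omega
      _ ≤ per p s 1 c c := Nat.le_of_dvd (by omega) hcc.1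
      _ ≤ D := hD c c
  obtain ⟨a, b, hab⟩ := hD'
  have hsp : ∀ a b : ℤ, ∀ k, (∃ l, In p s (Lin a b ^ l * (Lin a b ^ k - 1))) →
      per p s 1 a b ∣ k := by
    intro a b k hk
    have h1 := per_spec (m := 0) hp hp2 hs0 a b
    rw [zero_add, pow_one] at h1
    exact (h1.2 k).1 hk
  by_cases hps : p ∣ s
  · -- non-monomial pair
    have hgood : ∀ a b : ℤ, ¬ (p : ℤ) ∣ a → ¬ (p : ℤ) ∣ b → per p s 1 a b = D →
        ∃ a b : ℤ, per p s 1 a b = D ∧
        ¬ ∃ l, In (p ^ 2) s (Lin a b ^ l * (Lin a b ^ (per p s 1 a b) - 1)) := by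
      intro a b ha hb hab
      refine ⟨a, b, hab, ?_⟩
      intro hl
      obtain ⟨j, hj⟩ := no_survive hp hps hs0 ha hb (hsp a b) hl
      have := per_nilpotent hp hp2 hs0 hj
      omega
    by_cases hm : (p : ℤ) ∣ a ∨ (p : ℤ) ∣ b
    · have h1 : D ∣ per p s 1 c c := by
        rw [← hab]
        exact hsp a b _ ⟨1, mono_period hp hm hcc.1 hcc.2⟩
      have h2 : per p s 1 c c = D := le_antisymm (hD c c) (Nat.le_of_dvd (by omega) h1)
      have hcp : ¬ (p : ℤ) ∣ c := by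
        rw [← ZMod.intCast_zmod_eq_zero_iff_dvd, hc]
        exact div_ne_zero hg0 h2ne
      exact hgood c c hcp hcp h2
    · rw [not_or] at hm
      exact hgood a b hm.1 hm.2 hab
  · -- one of two lifts
    by_cases h1 : ∃ l, In (p ^ 2) s (Lin a b ^ l * (Lin a b ^ (per p s 1 a b) - 1))
    · have hper : per p s 1 (a + p) b = per p s 1 a b := by
        have e : ∀ k l : ℕ, In (p ^ 1) s (Lin (a + p) b ^ l * (Lin (a + p) b ^ k - 1)) ↔
            In (p ^ 1) s (Lin a b ^ l * (Lin a b ^ k - 1)) := by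
          intro k l
          rw [pow_one, in_iff, in_iff]
          have e1 : red p (Lin (a + p) b) = red p (Lin a b) := by
            rw [red_Lin, red_Lin]
            push_cast
            rw [ZMod.natCast_self, add_zero]
          simp only [map_mul, map_sub, map_pow, map_one, e1]
        unfold per
        simp only [e]
      refine ⟨a + p, b, hper.trans hab, ?_⟩
      intro h2
      rw [hper] at h2
      obtain ⟨j, hj⟩ := lift_one hp hps hs0 (hsp a b) h1 h2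
      have := per_nilpotent hp hp2 hs0 hj
      omega
    · exact ⟨a, b, hab, h1⟩

end Pool.Agent.R450.CA
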